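import Pool.Agent.Lib.MP_64d6f1_an.II.Wrap

set_option autoImplicit false
open scoped InnerProductSpace

namespace Pool.Agent.Results.MP_64d6f1_an.FactorLift

open Pool.Agent.Lib.MP_64d6f1_an.II

theorem zpow_mem {H : Type} [NormedAddCommGroup H] [InnerProductSpace ℂ H] [CompleteSpace H]
    {N : VonNeumannAlgebra H} {u : unitary (H →L[ℂ] H)} (hu : u.1 ∈ N) (e : ℤ) :
    (u ^ e).1 ∈ N := by
  induction e using Int.induction_on with
  | zero => exact one_mem _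
  | succ e ih => rw [zpow_add_one]; exact mul_mem ih hu
  | pred e ih => rw [zpow_sub_one]; exact mul_mem ih (star_mem hu)

theorem result
    (H : Type) [NormedAddCommGroup H] [InnerProductSpace ℂ H] [CompleteSpace H]
    (N : VonNeumannAlgebra H) (ξ : ℕ → H) (τ : (H →L[ℂ] H) → ℂ)
    (hξ : Summable (fun i => ‖ξ i‖ ^ 2))
    (hτ : ∀ x : H →L[ℂ] H, τ x = ∑' i, ⟪ξ i, x (ξ i)⟫_ℂ)
    (h1 : τ (1 : H →L[ℂ] H) = 1)
    (htr : ∀ x ∈ N, ∀ y ∈ N, τ (x * y) = τ (y * x))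
    (hf : ∀ x ∈ N, τ (star x * x) = 0 → x = 0)
    (hfactor : ∀ z ∈ N, (∀ x ∈ N, z * x = x * z) → ∃ c : ℂ, z = c • (1 : H →L[ℂ] H))
    (hdiffuse : ∀ p ∈ N, IsStarProjection p → p ≠ 0 →
      ∃ q ∈ N, IsStarProjection q ∧ p * q = q ∧ q ≠ 0 ∧ q ≠ p)
    (𝒰 : Ultrafilter ℕ) (h𝒰 : (↑𝒰 : Filter ℕ) ≤ Filter.cofinite)
    (u v : ℕ → unitary (H →L[ℂ] H))
    (hu : ∀ n, (u n : H →L[ℂ] H) ∈ N) (hv : ∀ n, (v n : H →L[ℂ] H) ∈ N)
    (hind : ∀ m : ℕ, 1 ≤ m → m ≤ 3 → ∀ (s : ℕ) (e : Fin m → ℤ),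
      Filter.Tendsto
        (fun n => τ (List.prod (List.ofFn (fun i : Fin m =>
          (((if (i.val + s) % 2 = 0 then u n else v n) ^ (e i) : unitary (H →L[ℂ] H)) : H →L[ℂ] H)
          - algebraMap ℂ (H →L[ℂ] H) (τ
              (((if (i.val + s) % 2 = 0 then u n else v n) ^ (e i) : unitary (H →L[ℂ] H)) :
                H →L[ℂ] H))))))
        (↑𝒰 : Filter ℕ) (nhds 0)) :
    ∃ (u' v' : ℕ → unitary (H →L[ℂ] H)),
      (∀ n, (u' n : H →L[ℂ] H) ∈ N) ∧ (∀ n, (v' n : H →L[ℂ] H) ∈ N) ∧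
      Filter.Tendsto
        (fun n => τ (star ((u' n : H →L[ℂ] H) - (u n : H →L[ℂ] H))
          * ((u' n : H →L[ℂ] H) - (u n : H →L[ℂ] H)))) (↑𝒰 : Filter ℕ) (nhds 0) ∧
      Filter.Tendsto
        (fun n => τ (star ((v' n : H →L[ℂ] H) - (v n : H →L[ℂ] H))
          * ((v' n : H →L[ℂ] H) - (v n : H →L[ℂ] H)))) (↑𝒰 : Filter ℕ) (nhds 0) ∧
      ∀ n : ℕ, ∀ m : ℕ, 1 ≤ m → m ≤ 2 → ∀ (s : ℕ) (e : Fin m → ℤ),
        τ (List.prod (List.ofFn (fun i : Fin m =>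
          (((if (i.val + s) % 2 = 0 then u' n else v' n) ^ (e i) : unitary (H →L[ℂ] H)) :
            H →L[ℂ] H)
          - algebraMap ℂ (H →L[ℂ] H) (τ
              (((if (i.val + s) % 2 = 0 then u' n else v' n) ^ (e i) : unitary (H →L[ℂ] H)) :
                H →L[ℂ] H))))) = 0 := by
  have h : II1 N ξ τ := ⟨hξ, hτ, h1, htr, hf, hfactor, hdiffuse⟩
  obtain ⟨T, hT⟩ := h.lin
  have hT1 : T 1 = 1 := (hT 1).symm.trans h1
  have c1 : ∀ x : H →L[ℂ] H, τ (x - algebraMap ℂ (H →L[ℂ] H) (τ x)) = 0 := fun x => by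
    simp only [hT, Algebra.algebraMap_eq_smul_one, map_sub, map_smul, hT1, smul_eq_mul]
    ring
  have c2 : ∀ x y : H →L[ℂ] H, τ ((x - algebraMap ℂ (H →L[ℂ] H) (τ x)) *
      (y - algebraMap ℂ (H →L[ℂ] H) (τ y))) = τ (x * y) - τ x * τ y := fun x y => by
    simp only [hT, Algebra.algebraMap_eq_smul_one, sub_mul, mul_sub, smul_mul_assoc,
      mul_smul_comm, one_mul, mul_one, map_sub, map_smul, hT1, smul_eq_mul]
    ring
  obtain ⟨u', v', m1, m2, t1, t2, hi⟩ := h.lift h𝒰 u v hu hv fun e f => by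
    have := hind 2 (by norm_num) (by norm_num) 0 ![e, f]
    simpa [List.ofFn_succ, c2] using this
  refine ⟨u', v', m1, m2, t1, t2, fun n m hm1 hm2 s e => ?_⟩
  interval_cases m
  · simpa [List.ofFn_succ] using c1 _
  · rcases Nat.mod_two_eq_zero_or_one s with hs | hs
    · have hs' : (1 + s) % 2 ≠ 0 := by omega
      simp [List.ofFn_succ, c2, hs, hs', hi]
    · have hs' : (1 + s) % 2 = 0 := by omega
      simp [List.ofFn_succ, c2, hs, hs',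
        htr _ (zpow_mem (m2 n) (e 0)) _ (zpow_mem (m1 n) (e 1)), hi, mul_comm]

end Pool.Agent.Results.MP_64d6f1_an.FactorLift
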