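import Pool.Agent.Lib.MP_64d6f1_an.FbDefs
import Pool.Agent.Lib.MP_64d6f1_an.FbCov

open scoped InnerProductSpace
open Filter Topology
open Pool.Agent.Lib.MP_64d6f1_an Pool.Agent.Lib.MP_64d6f1_an.TAlg

namespace Pool.Agent.Results.MP_64d6f1_an.SeparableK3

theorem upow_eq {R : Type} [NormedRing R] [StarRing R] (u : unitary R) (e : ℤ) :
    upow (u : R) e = (u ^ e : unitary R) := by
  obtain ⟨n, rfl | rfl⟩ := e.eq_nat_or_neg
  · simp [upow]
  · rw [zpow_neg, ← inv_zpow, ← Unitary.star_eq_inv]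
    simp [upow]

theorem vtr_star {H : Type} [NormedAddCommGroup H] [InnerProductSpace ℂ H] [CompleteSpace H]
    (ξ : H) (x : H →L[ℂ] H) : vtr ξ (star x * x) = ⟪x ξ, x ξ⟫_ℂ := by
  rw [vtr, ContinuousLinearMap.star_eq_adjoint, mul_apply_eq_comp,
    ContinuousLinearMap.adjoint_inner_right]

theorem nrm2_vtr {H : Type} [NormedAddCommGroup H] [InnerProductSpace ℂ H] [CompleteSpace H]
    (ξ : H) (x : H →L[ℂ] H) : nrm2 (vtr ξ) x = ‖x ξ‖ := by
  rw [nrm2, vtr_star, norm_eq_sqrt_re_inner (𝕜 := ℂ)]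
  rfl

theorem result (𝒰 : Ultrafilter ℕ) (h𝒰 : (𝒰 : Filter ℕ) ≤ cofinite) :
    ∃ (H : Type) (_ : NormedAddCommGroup H) (_ : InnerProductSpace ℂ H) (_ : CompleteSpace H)
      (N : VonNeumannAlgebra H) (ξ : H),
      FaithfulTrace (N : Set (H →L[ℂ] H)) (vtr ξ) ∧ SepOrbit N ξ ∧
        NoIndepLift (N : Set (H →L[ℂ] H)) (vtr ξ) 𝒰 := by
  classical
  obtain ⟨A0, hb, h1, hc⟩ := fb_core 𝒰 (by rwa [← Nat.cofinite_eq_atTop])
  obtain ⟨N, ξ, L, hLN, hLτ, htr, hf, hat⟩ := envelope A0 hb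
  let A := vnT N ξ htr
  have hA1 : ⟪ξ, (1 : A0.H →L[ℂ] A0.H) ξ⟫_ℂ = 1 := by rw [← map_one L, hLτ, h1]
  have hA : VN A := by
    refine ⟨fun a ha => ?_, hA1, fun Φ f => ?_⟩
    · rw [vnT_nrm, norm_eq_zero] at ha
      exact Subtype.ext (hf _ a.2 ha)
    · exact (vnT_bd (Φ f)).mono (norm_starAlgHom_le (N.toStarSubalgebra.subtype.comp Φ) f)
  have hL := hc A (L.codRestrict N.toStarSubalgebra hLN) hA hLτ fun a h2 h3 x => by
    obtain ⟨c, h4, h5⟩ := hat a h2 h3 x.1 x.2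
    exact ⟨c, Subtype.ext h4, Subtype.ext h5⟩
  unfold Lifts at hL
  simp only [not_forall] at hL
  obtain ⟨Φ, Ψ, H2, -, -, hno⟩ := hL
  let U : (CX →⋆ₐ[ℂ] A) → unitary (A0.H →L[ℂ] A0.H) := fun Φ =>
    ⟨_, Unitary.map_mem (N.toStarSubalgebra.subtype.comp Φ) fourier_unitary⟩
  have key : ∀ (Φ : CX →⋆ₐ[ℂ] A) (u : unitary (A0.H →L[ℂ] A0.H)), (Φ (fourier 1)).1 = u →
      ∀ e : ℤ, upow u.1 e = (Φ (fourier e)).1 := fun Φ u hu e =>
    (upow_eq u e).trans (fc_zpow (N.toStarSubalgebra.subtype.comp Φ) u hu e).symm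
  obtain ⟨N₀, n1, n2, n3⟩ := fb_sep N ξ
    (fun p : ℕ × Bool => ((if p.2 then U (Φ p.1) else U (Ψ p.1) : unitary _) : A0.H →L[ℂ] A0.H))
    (by
      rintro ⟨n, _ | _⟩
      · exact (Ψ n _).2
      · exact (Φ n _).2)
  have cw : ∀ (Φ : ℕ → CX →⋆ₐ[ℂ] A) (x : ℕ → A0.H →L[ℂ] A0.H),
      CenW (N₀ : Set _) (vtr ξ) 𝒰 (fun n => (U (Φ n)).1) x → ∃ (y : ℕ → A) (C : ℝ), (∀ n, x n = (y n).1) ∧
        (∀ n, Bd (y n) C) ∧ Tendsto (fun n => A.τ (y n)) 𝒰 (𝓝 0) ∧ FbAp 𝒰 Φ y := by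
    rintro Φ x ⟨x1, ⟨C, x2⟩, x3, x4⟩
    refine ⟨fun n => ⟨x n, n1 _ (x1 n)⟩, C, fun _ => rfl, fun n => (vnT_bd _).mono (x2 n), x3,
      fun ε hε => ?_⟩
    obtain ⟨c, hc⟩ := x4 ε hε
    refine ⟨∑ e ∈ c.support, c e • fourier e, hc.mono fun n hn => ?_⟩
    rw [vnT_nrm]
    simp only [key (Φ n) (U (Φ n)) rfl, nrm2_vtr] at hn
    have e : ((Φ n) (∑ e ∈ c.support, c e • fourier e)).1 =
        ∑ e ∈ c.support, c e • ((Φ n) (fourier e)).1 := by
      change (N.toStarSubalgebra.subtype.comp (Φ n)) _ = _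
      rw [map_sum]
      exact Finset.sum_congr rfl fun e _ => map_smul _ _ _
    rw [← e] at hn
    exact hn
  have bn : ∀ {y : A} {C : ℝ}, Bd y C → nrm y ≤ C := fun h => by
    simpa [hA.nrm_one] using (h.2 1).1
  refine ⟨A0.H, inferInstance, inferInstance, inferInstance, N₀, ξ,
    ⟨hA1, fun x hx y hy => htr x (n1 x hx) y (n1 y hy), fun x hx h0 => hf x (n1 x hx) ?_⟩, n3,
    fun n => (U (Φ n)).1, fun n => (U (Ψ n)).1,
    fun n => ⟨⟨n2 (n, true), (U (Φ n)).2⟩, ⟨n2 (n, false), (U (Ψ n)).2⟩⟩,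
    fun a a' b b' ha ha' hb hb' => ?_, fun u' v' ⟨hu', c1⟩ ⟨hv', c2⟩ => ?_⟩
  · rwa [vtr_star, inner_self_eq_zero] at h0
  · obtain ⟨x, C, e1, b1, t1, p1⟩ := cw Φ a ha
    obtain ⟨x', C', e2, b2, -, p2⟩ := cw Φ a' ha'
    obtain ⟨y, D, e3, b3, t3, p3⟩ := cw Ψ b hb
    obtain ⟨y', D', e4, b4, -, p4⟩ := cw Ψ b' hb'
    have H2' : ∀ e f, Tendsto (fun n => A.τ (cen (Ψ n (fourier e)) * cen (Φ n (fourier f)))) 𝒰
        (𝓝 0) := fun e f => (H2 f e).congr fun n => A.comm _ _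
    simp only [e1, e2, e3, e4]
    refine ⟨fb_word hA H2 (fun n => bn (b1 n)) (fun n => bn (b3 n)) p1 p3 t3,
      fb_word hA H2' (fun n => bn (b3 n)) (fun n => bn (b1 n)) p3 p1 t1,
      (fb_word hA H2 (fun n => bn ((b2 n).mul (b1 n))) (fun n => bn (b3 n)) (p2.mul hA b1 p1)
        p3 t3).congr fun n => ?_,
      (fb_word hA H2' (fun n => bn ((b4 n).mul (b3 n))) (fun n => bn (b1 n)) (p4.mul hA b3 p3)
        p1 t1).congr fun n => ?_⟩
    · rw [mul_assoc, A.comm]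
      rfl
    · rw [mul_assoc, A.comm]
      rfl
  · by_contra hcon
    rw [← Ultrafilter.eventually_not] at hcon
    simp only [Correlated, not_exists, not_not] at hcon
    choose Φ' hΦ' using fun n => exists_fc N ⟨u' n, (hu' n).2⟩ (n1 _ (hu' n).1)
    choose Ψ' hΨ' using fun n => exists_fc N ⟨v' n, (hv' n).2⟩ (n1 _ (hv' n).1)
    obtain ⟨T, hT⟩ := exists_fc N 1 (one_mem N)
    let p : ℕ → Prop := fun n => ∀ e f, fbCov (A := A) (Φ' n (fourier e)) (Ψ' n (fourier f)) = 0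
    have hp : ∀ᶠ n in (𝒰 : Filter ℕ), p n := hcon.mono fun n hn e f => by
      have := hn e f
      rw [key (Φ' n) ⟨u' n, (hu' n).2⟩ (hΦ' n), key (Ψ' n) ⟨v' n, (hv' n).2⟩ (hΨ' n)] at this
      exact sub_eq_zero.2 this
    refine hno ⟨fun n => if p n then Φ' n else T, fun n => if p n then Ψ' n else T, ?_, ?_,
      fun n e f => ?_⟩
    · refine c1.congr' (hp.mono fun n hn => ?_)
      simp only [if_pos hn, vnT_nrm, nrm2_vtr]
      rw [show u' n = _ from (hΦ' n).symm]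
      rfl
    · refine c2.congr' (hp.mono fun n hn => ?_)
      simp only [if_pos hn, vnT_nrm, nrm2_vtr]
      rw [show v' n = _ from (hΨ' n).symm]
      rfl
    · rw [fbCov_cen hA]
      by_cases hn : p n
      · simp only [if_pos hn]
        exact hn e f
      · have k : ∀ e, (T (fourier e) : A) = 1 := fun e =>
          Subtype.ext ((key T 1 hT e).symm.trans (by rw [upow_eq, one_zpow]; rfl))
        have k1 : fbCov (A := A) 1 1 = 0 := by
          simp only [fbCov, mul_one, hA.one, sub_self]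
        simp only [if_neg hn]
        exact (congrArg₂ (fbCov (A := A)) (k e) (k f)).trans k1

end Pool.Agent.Results.MP_64d6f1_an.SeparableK3
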