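import Pool.Agent.Lib.MP_64d6f1_an.S7Main
import Pool.Agent.Lib.MP_64d6f1_an.S7Env
import Pool.Agent.Lib.MP_64d6f1_an.FbCov

set_option autoImplicit false
open scoped InnerProductSpace
open Pool.Agent.Lib.MP_64d6f1_an Pool.Agent.Lib.MP_64d6f1_an.TAlg

namespace Pool.Agent.Results.MP_64d6f1_an.SevenFour

section defs

variable {R : Type} [Ring R] [StarRing R] [Algebra ℂ R]

/-- The trace of the alternating product of the `m` centred powers `w ^ e i - τ (w ^ e i)`, where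
`w` is `u` or `v` according to the parity of `i + s`. -/
noncomputable def cword (τ : R → ℂ) (u v : unitary R) (m s : ℕ) (e : Fin m → ℤ) : ℂ :=
  τ (List.prod (List.ofFn (fun i : Fin m =>
    (((if (i.val + s) % 2 = 0 then u else v) ^ (e i) : unitary R) : R)
      - algebraMap ℂ R (τ (((if (i.val + s) % 2 = 0 then u else v) ^ (e i) : unitary R) : R)))))

/-- `τ` is normalised, tracial and faithful on `N`. -/
def IsTrace (N : Set R) (τ : R → ℂ) : Prop :=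
  τ 1 = 1 ∧ (∀ x ∈ N, ∀ y ∈ N, τ (x * y) = τ (y * x)) ∧ ∀ x ∈ N, τ (star x * x) = 0 → x = 0

/-- `u'` is a sequence of unitaries of `N` with the same class as `u` in the ultrapower. -/
def Lift (N : Set R) (τ : R → ℂ) (𝒰 : Ultrafilter ℕ) (u u' : ℕ → unitary R) : Prop :=
  (∀ n, (u' n : R) ∈ N) ∧ Filter.Tendsto
    (fun n => τ (star ((u' n : R) - (u n : R)) * ((u' n : R) - (u n : R))))
    (↑𝒰 : Filter ℕ) (nhds 0)

/-- A pair of sequences of unitaries of `N`, all roots of one non-zero polynomial, whose centred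
words of length one to seven have trace tending to zero, and all of whose lifts have, at almost
every index, a centred word of length one to four with non-zero trace. -/
def NoLift74 (N : Set R) (τ : R → ℂ) (𝒰 : Ultrafilter ℕ) : Prop :=
  ∃ u v : ℕ → unitary R, (∀ n, (u n : R) ∈ N) ∧ (∀ n, (v n : R) ∈ N) ∧
    (∃ p : Polynomial ℂ, p ≠ 0 ∧ ∀ n, Polynomial.aeval (u n : R) p = 0 ∧
      Polynomial.aeval (v n : R) p = 0) ∧
    (∀ m : ℕ, 1 ≤ m → m ≤ 7 → ∀ (s : ℕ) (e : Fin m → ℤ),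
      Filter.Tendsto (fun n => cword τ (u n) (v n) m s e) (↑𝒰 : Filter ℕ) (nhds 0)) ∧
    ∀ u' v' : ℕ → unitary R, Lift N τ 𝒰 u u' → Lift N τ 𝒰 v v' →
      ∀ᶠ n in (↑𝒰 : Filter ℕ), ∃ m : ℕ, 1 ≤ m ∧ m ≤ 4 ∧ ∃ (s : ℕ) (e : Fin m → ℤ),
        cword τ (u' n) (v' n) m s e ≠ 0

end defs

theorem result (𝒰 : Ultrafilter ℕ) (h𝒰 : (↑𝒰 : Filter ℕ) ≤ Filter.cofinite) :
    ∃ (H : Type) (_ : NormedAddCommGroup H) (_ : InnerProductSpace ℂ H) (_ : CompleteSpace H)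
      (N : VonNeumannAlgebra H) (ξ : H) (τ : (H →L[ℂ] H) → ℂ),
      (∀ x : H →L[ℂ] H, τ x = ⟪ξ, x ξ⟫_ℂ) ∧ IsTrace (N : Set (H →L[ℂ] H)) τ ∧
      TopologicalSpace.IsSeparable ((fun x : H →L[ℂ] H => x ξ) '' N) ∧
      NoLift74 (N : Set (H →L[ℂ] H)) τ 𝒰 := by
  classical
  obtain ⟨A0, hb, h1, hc⟩ := main7 𝒰 (by rwa [← Nat.cofinite_eq_atTop])
  obtain ⟨H, _, _, _, N, ξ, htr, hA, L, e, s, k1, k2, k3, k4, k5, k6, k7, k8, k9⟩ := env2 A0 hb h1
  obtain ⟨Φ, Ψ, ⟨p, p0, hp⟩, hw, hno⟩ := hc _ L e s hA k1 k2 k3 k4 k5 k6 k7 k8 k9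
  let A := vnT N ξ htr
  let U : (CX →⋆ₐ[ℂ] A) → unitary (H →L[ℂ] H) := fun Φ =>
    ⟨_, Unitary.map_mem (N.toStarSubalgebra.subtype.comp Φ) fourier_unitary⟩
  have key : ∀ (Φ : CX →⋆ₐ[ℂ] A) (u : unitary (H →L[ℂ] H)), (Φ (fourier 1)).1 = u → ∀ e : ℤ,
      (u ^ e).1 - algebraMap ℂ _ ⟪ξ, (u ^ e).1 ξ⟫_ℂ = (cen (Φ (fourier e))).1 := by
    intro Φ u hu e
    rw [← fc_zpow (N.toStarSubalgebra.subtype.comp Φ) u hu e]
    rfl
  have word : ∀ (Φ Ψ : CX →⋆ₐ[ℂ] A) (u v : unitary (H →L[ℂ] H)), (Φ (fourier 1)).1 = u →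
      (Ψ (fourier 1)).1 = v → ∀ (m r : ℕ) (f : Fin m → ℤ),
      cword (fun x => ⟪ξ, x ξ⟫_ℂ) u v m r f =
      A.τ (List.ofFn fun i : Fin m => if (i.val + r) % 2 = 0 then cen (Φ (fourier (f i)))
        else cen (Ψ (fourier (f i)))).prod := by
    intro Φ Ψ u v hu hv m r f
    change _ = ⟪ξ, N.toStarSubalgebra.subtype (List.prod _) ξ⟫_ℂ
    rw [map_list_prod]
    refine congrArg (fun x : List (H →L[ℂ] H) => ⟪ξ, x.prod ξ⟫_ℂ)
      (Eq.trans (congrArg List.ofFn (funext fun i => ?_)) List.map_ofFn.symm)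
    by_cases h : (i.val + r) % 2 = 0
    · simp only [Function.comp_apply, if_pos h]
      exact key Φ u hu _
    · simp only [Function.comp_apply, if_neg h]
      exact key Ψ v hv _
  obtain ⟨N₀, n1, n2, n3⟩ := fb_sep N ξ
    (fun p : ℕ × Bool => ((if p.2 then U (Φ p.1) else U (Ψ p.1) : unitary _) : H →L[ℂ] H))
    (by
      rintro ⟨n, _ | _⟩
      · exact (Ψ n _).2
      · exact (Φ n _).2)
  have ae : ∀ x : A, Polynomial.aeval x p = 0 → Polynomial.aeval x.1 p = 0 := fun x hx =>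
    (Polynomial.aeval_algHom_apply N.toStarSubalgebra.subtype.toAlgHom x p).trans
      (congrArg Subtype.val hx)
  refine ⟨H, inferInstance, inferInstance, inferInstance, N₀, ξ, fun x => ⟪ξ, x ξ⟫_ℂ,
    fun _ => rfl, ⟨hA.one, fun x hx y hy => htr x (n1 x hx) y (n1 y hy), fun x hx h0 => ?_⟩, n3,
    fun n => U (Φ n), fun n => U (Ψ n), fun n => n2 (n, true), fun n => n2 (n, false),
    ⟨p, p0, fun n => ⟨ae _ (hp n).1, ae _ (hp n).2⟩⟩, fun m m1 m7 r f =>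
      (hw m m1 m7 r f).congr fun n => (word (Φ n) (Ψ n) _ _ rfl rfl m r f).symm,
    fun u' v' ⟨hu', c1⟩ ⟨hv', c2⟩ => ?_⟩
  · have h2 := nrm_sq' (A := A) ⟨x, n1 x hx⟩
    have h3 : ((nrm (A := A) ⟨x, n1 x hx⟩ ^ 2 : ℝ) : ℂ) = 0 := h2.symm.trans h0
    exact congrArg Subtype.val (hA.faith ⟨x, n1 x hx⟩
      (pow_eq_zero_iff two_ne_zero |>.mp (by exact_mod_cast h3)))
  choose Φ' hΦ' using fun n => exists_fc N (u' n) (n1 _ (hu' n))
  choose Ψ' hΨ' using fun n => exists_fc N (v' n) (n1 _ (hv' n))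
  have nl : ∀ x : ℕ → A, Filter.Tendsto (fun n => A.τ (star (x n) * x n)) 𝒰 (nhds 0) →
      Null (B := fun _ => A) 𝒰 x := by
    intro x hx
    have := ((Complex.continuous_re.tendsto _).comp hx).sqrt
    simpa [Null, Function.comp_def, ← nrm_sq, Real.sqrt_sq (nrm_nonneg _)] using this
  by_contra hcon
  rw [← Ultrafilter.eventually_not] at hcon
  refine hno Φ' Ψ' (nl _ (c1.congr fun n => ?_)) (nl _ (c2.congr fun n => ?_))
    (hcon.mono fun n hn => ?_)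
  · rw [← hΦ']; rfl
  · rw [← hΨ']; rfl
  · simp only [not_exists, not_and, not_not, word (Φ' n) (Ψ' n) _ _ (hΦ' n) (hΨ' n)] at hn
    refine ⟨fun a b => ?_, fun a b c d => ?_⟩
    · simpa using hn 2 (by norm_num) (by norm_num) 0 ![a, b]
    · simpa using hn 4 (by norm_num) (by norm_num) 0 ![a, b, c, d]

end Pool.Agent.Results.MP_64d6f1_an.SevenFour
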